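import Pool.Agent.Helper11.PC.Defs

/-! Packet TPROJ (MP_1f931d_al, project PC of helper11). -/

namespace Pool.Agent.Helper69.PC

open Pool.Agent.Helper11.PC SimpleGraph

universe w

theorem tproj {V : Type w} {T : SimpleGraph V} (hT : T.IsTree) : TreeProj T := by
  classical
  intro S hS hne o
  -- a point of `S` closest to `o`
  obtain ⟨p, hpS, hmin⟩ : ∃ p ∈ S, ∀ q ∈ S, T.dist o p ≤ T.dist o q := by
    let D : Set ℕ := (fun q => T.dist o q) '' S
    have hD : D.Nonempty := hne.image _
    obtain ⟨p, hp, hpe⟩ := Nat.sInf_mem hD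
    refine ⟨p, hp, fun q hq => ?_⟩
    have h1 : sInf D ≤ T.dist o q := Nat.sInf_le ⟨q, hq, rfl⟩
    simp only at hpe
    omega
  refine ⟨p, hpS, fun q hq => ?_⟩
  have hconn : T.Connected := hT.connected
  obtain ⟨P1, hP1, hl1⟩ := (hconn.preconnected o p).exists_path_of_dist
  obtain ⟨P2, hP2, hl2⟩ := (hconn.preconnected p q).exists_path_of_dist
  obtain ⟨P, hP, hl⟩ := (hconn.preconnected o q).exists_path_of_dist
  have hS2 : ∀ c ∈ P2.support, c ∈ S := by
    intro c hc
    apply hS p hpS q hq c
    have e := P2.take_spec hc
    have el := congrArg Walk.length e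
    rw [Walk.length_append] at el
    have a1 : T.dist p c ≤ (P2.takeUntil c hc).length := dist_le _
    have a2 : T.dist c q ≤ (P2.dropUntil c hc).length := dist_le _
    have a3 : T.dist p q ≤ T.dist p c + T.dist c q := hconn.dist_triangle
    omega
  have hS1 : ∀ c ∈ P1.support, c ∈ S → c = p := by
    intro c hc hcS
    by_contra hcp
    have e := P1.take_spec hc
    have el := congrArg Walk.length e
    rw [Walk.length_append] at el
    have a1 : T.dist o c ≤ (P1.takeUntil c hc).length := dist_le _
    have a2 : 0 < (P1.dropUntil c hc).length := by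
      rcases Nat.eq_zero_or_pos (P1.dropUntil c hc).length with h | h
      · exact absurd (Walk.eq_of_length_eq_zero h) hcp
      · exact h
    have a3 := hmin c hcS
    omega
  have hpath : (P1.append P2).IsPath := by
    rw [Walk.isPath_def, Walk.support_append, List.nodup_append]
    have h2 : P2.support.Nodup := hP2.support_nodup
    refine ⟨hP1.support_nodup, h2.tail, ?_⟩
    intro a ha b hb hab
    subst hab
    have h3 : a ∈ S := hS2 a (List.mem_of_mem_tail hb)
    have h4 : a = p := hS1 a ha h3
    subst h4
    rw [Walk.support_eq_cons] at h2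
    exact (List.nodup_cons.1 h2).1 hb
  have heq : P = P1.append P2 := by
    have := hT.isAcyclic.path_unique ⟨P, hP⟩ ⟨P1.append P2, hpath⟩
    exact congrArg Subtype.val this
  have : P.length = P1.length + P2.length := by rw [heq, Walk.length_append]
  omega

end Pool.Agent.Helper69.PC
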